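import Pool.Agent.H37.CP.Targets

/-! Row NUM: from the inequality for all `t`, `p` to the tradeoff. -/

set_option autoImplicit false

namespace Pool.Agent.H51.CPE

open Finset Pool.Agent.H37.CP

theorem num_log (a : ℝ) (s t p : ℕ) (hs : 1 ≤ s)
    (h : (2 : ℝ) ^ a ≤ 2 * (16 * s) ^ t * 16 ^ p) :
    a ≤ 1 + t * (4 + Real.logb 2 s) + 4 * p := by
  have hs0 : (0 : ℝ) < s := by
    have : 0 < s := hs
    exact_mod_cast this
  have h16 : Real.logb 2 16 = 4 := by
    rw [show (16 : ℝ) = 2 ^ (4 : ℝ) by norm_num]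
    exact Real.logb_rpow (by norm_num) (by norm_num)
  have h1 := Real.logb_le_logb_of_le (b := 2) (by norm_num) (by positivity) h
  rw [Real.logb_rpow (by norm_num) (by norm_num),
    Real.logb_mul (by positivity) (by positivity), Real.logb_mul (by norm_num) (by positivity),
    Real.logb_pow, Real.logb_pow, Real.logb_mul (by norm_num) hs0.ne', h16,
    Real.logb_self_eq_one (by norm_num)] at h1
  linarith

theorem pf_NUM : S_NUM := by
  intro a s d ha hs H
  have H' : ∀ t p : ℕ, d ≤ (t + 1) * p → a ≤ 1 + t * (4 + Real.logb 2 s) + 4 * p :=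
    fun t p h => num_log a s t p hs (H t p h)
  refine ⟨?_, ?_⟩
  · have h1 := H' 0 d (by omega)
    push_cast at h1
    linarith
  · intro hs2
    obtain ⟨L, hL⟩ : ∃ L, Real.logb 2 s = L := ⟨_, rfl⟩
    rw [hL] at H' ⊢
    have hL1 : 1 ≤ L := by
      rw [← hL]
      have h2 : (2 : ℝ) ≤ s := by exact_mod_cast hs2
      calc (1 : ℝ) = Real.logb 2 2 := (Real.logb_self_eq_one (by norm_num)).symm
        _ ≤ Real.logb 2 s := Real.logb_le_logb_of_le (by norm_num) (by norm_num) h2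
    have hL0 : 0 < L := by linarith
    obtain ⟨t, ht⟩ : ∃ t : ℕ, ⌊a / (20 * L)⌋₊ = t := ⟨_, rfl⟩
    have ht1 : (t : ℝ) * (20 * L) ≤ a := by
      rw [← ht]
      have h3 : (⌊a / (20 * L)⌋₊ : ℝ) ≤ a / (20 * L) := Nat.floor_le (by positivity)
      rwa [le_div_iff₀ (by positivity)] at h3
    have ht2 : a < ((t : ℝ) + 1) * (20 * L) := by
      rw [← ht]
      have h3 : a / (20 * L) < (⌊a / (20 * L)⌋₊ : ℝ) + 1 := Nat.lt_floor_add_one _
      rwa [div_lt_iff₀ (by positivity)] at h3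
    have hp1 : d ≤ (t + 1) * (d / (t + 1) + 1) := (Nat.lt_mul_div_succ d (Nat.succ_pos t)).le
    have hp2 : ((d / (t + 1) + 1 : ℕ) : ℝ) * ((t : ℝ) + 1) ≤ d + ((t : ℝ) + 1) := by
      have h3 : (d / (t + 1) + 1) * (t + 1) ≤ d + (t + 1) := by
        have := Nat.div_mul_le_self d (t + 1)
        nlinarith
      exact_mod_cast h3
    obtain ⟨P, hP⟩ : ∃ P : ℝ, ((d / (t + 1) + 1 : ℕ) : ℝ) = P := ⟨_, rfl⟩
    have h4 := H' t (d / (t + 1) + 1) hp1
    rw [hP] at h4 hp2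
    have ht0 : (0 : ℝ) ≤ t := Nat.cast_nonneg t
    -- `5 t L ≤ a / 4`
    have h5 : (t : ℝ) * (4 + L) ≤ a / 4 := by nlinarith
    have h6 : a / 2 ≤ 4 * (P - 1) := by linarith
    have h7 : (P - 1) * ((t : ℝ) + 1) ≤ d := by linarith
    have h8 : a / 8 * ((t : ℝ) + 1) ≤ d := by nlinarith
    have h9 : a / 8 * a ≤ a / 8 * (((t : ℝ) + 1) * (20 * L)) :=
      mul_le_mul_of_nonneg_left ht2.le (by positivity)
    have h10 : a / 8 * (((t : ℝ) + 1) * (20 * L)) ≤ d * (20 * L) := by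
      calc a / 8 * (((t : ℝ) + 1) * (20 * L)) = (a / 8 * ((t : ℝ) + 1)) * (20 * L) := by ring
        _ ≤ d * (20 * L) := mul_le_mul_of_nonneg_right h8 (by positivity)
    nlinarith

end Pool.Agent.H51.CPE
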